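import Pool.Agent.Lib.MP_100a6c_lc.IfaceB

/-!
# Module CC: the chain condition and `κ⁺`
-/

universe u v

open Cardinal

namespace Pool.Agent.Lib.MP_100a6c_lc.H61

open BName

theorem ccov_of_ult {B : Type u} [CompleteBooleanAlgebra B] {c : Cardinal.{u}} (K : Type u)
    (U : K → Set B) (hK : #K = c) (hU : ∀ k, IsUlt (U k)) (hcov : ∀ b : B, b ≠ ⊥ → ∃ k, b ∈ U k) :
    CCov c B := by
  classical
  intro s
  let r : B → B → Prop := WellOrderingRel
  let g : B → B := fun b => b ⊓ (⨆ d : {d // d ∈ s ∧ r d b}, d.1)ᶜ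
  have hdisj : ∀ b ∈ s, ∀ b', r b b' → g b ⊓ g b' ≤ ⊥ := by
    intro b hb b' hbb
    have h1 : g b ≤ ⨆ d : {d // d ∈ s ∧ r d b'}, d.1 :=
      inf_le_left.trans (le_iSup_of_le ⟨b, hb, hbb⟩ le_rfl)
    have h2 : g b' ≤ (⨆ d : {d // d ∈ s ∧ r d b'}, d.1)ᶜ := inf_le_right
    exact le_trans (inf_le_inf h1 h2) (by rw [inf_compl_self])
  refine ⟨{b | b ∈ s ∧ g b ≠ ⊥}, fun b hb => hb.1, ?_, ?_⟩
  · choose f hf using fun b : {b // b ∈ s ∧ g b ≠ ⊥} => hcov (g b.1) b.2.2
    rw [← hK]
    refine Cardinal.mk_le_of_injective (f := f) ?_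
    rintro ⟨b, hb⟩ ⟨b', hb'⟩ hbb
    apply Subtype.ext
    change b = b'
    have h1 := hf ⟨b, hb⟩
    have h2 := hf ⟨b', hb'⟩
    rw [← hbb] at h2
    have h3 := (hU _).inf _ h1 _ h2
    change g b ⊓ g b' ∈ _ at h3
    rcases trichotomous_of WellOrderingRel b b' with hr | he | hr
    · rw [le_bot_iff.1 (hdisj b hb.1 b' hr)] at h3
      exact absurd h3 (hU _).bot
    · exact he
    · rw [inf_comm, le_bot_iff.1 (hdisj b' hb'.1 b hr)] at h3
      exact absurd h3 (hU _).bot
  · refine le_antisymm (sSup_le_sSup fun b hb => hb.1) (sSup_le fun b => ?_)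
    induction b using (IsWellFounded.wf (r := (WellOrderingRel : B → B → Prop))).induction with
    | _ b ih =>
      intro hb
      have h1 : b ≤ g b ⊔ ⨆ d : {d // d ∈ s ∧ r d b}, d.1 := by
        change _ ≤ b ⊓ (⨆ d : {d // d ∈ s ∧ r d b}, d.1)ᶜ ⊔ ⨆ d : {d // d ∈ s ∧ r d b}, d.1
        rw [sup_inf_right, sup_comm (_ᶜ), sup_compl_eq_top, inf_top_eq]
        exact le_sup_left
      refine h1.trans (sup_le ?_ (iSup_le fun d => ih d.1 d.2.2 d.2.1))
      by_cases hg : g b = ⊥
      · rw [hg]; exact bot_le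
      · exact inf_le_left.trans (le_sSup ⟨hb, hg⟩)

/-- A disjoint family of nonzero elements has size at most `c`. -/
theorem card_le_of_disjoint {B : Type u} [CompleteBooleanAlgebra B] {c : Cardinal.{u}}
    (h : CCov c B) {Y : Type u} (a : Y → B) (h0 : ∀ y, a y ≠ ⊥)
    (hd : ∀ y y', y ≠ y' → a y ⊓ a y' = ⊥) : #Y ≤ c := by
  obtain ⟨t, hts, htc, hsup⟩ := h (Set.range a)
  have hinj : Function.Injective a := by
    intro y y' hyy
    by_contra hne
    have := hd y y' hne
    rw [hyy, inf_idem] at this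
    exact h0 y' this
  have ht : t = Set.range a := by
    refine Set.Subset.antisymm hts ?_
    rintro _ ⟨y, rfl⟩
    by_contra hy
    have h1 : a y ≤ sSup t := by rw [hsup]; exact le_sSup ⟨y, rfl⟩
    have h2 : a y ⊓ sSup t = ⊥ := by
      rw [inf_sSup_eq]
      refine le_bot_iff.1 (iSup_le fun b => iSup_le fun hb => ?_)
      obtain ⟨y', rfl⟩ := hts hb
      refine (hd y y' ?_).le
      rintro rfl
      exact hy hb
    rw [inf_eq_left.2 h1] at h2
    exact h0 y h2
  rw [ht, Cardinal.mk_range_eq a hinj] at htc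
  exact htc

theorem isSucc_check {B : Type u} [CompleteBooleanAlgebra B] {c : Cardinal.{u}} (hc : ℵ₀ ≤ c)
    (h : CCov c B) : (VB B).isSucc (check (Mu c)) (check (Kap c)) = ⊤ := by
  have h1 : (VB B).isOrd (check (Mu c)) = ⊤ := isOrd_check (ZFSet.isOrdinal_toZFSet _)
  have h3 : (⨅ ξ, (VB B).mem ξ (check (Mu c)) ⇨ (VB B).leCard ξ (check (Kap c))) = ⊤ := by
    rw [iInf_VBcheck (ext_leCard_left _)]
    refine eq_top_iff.2 (le_iInf fun x => le_iInf fun hx => ?_)
    rw [leCard_check]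
    rw [H77.leCard_iff]
    obtain ⟨a, ha, rfl⟩ := Ordinal.mem_toZFSet_iff.1 hx
    rw [Kap, Ordinal.card_toZFSet, Ordinal.card_toZFSet, Cardinal.card_ord]
    exact Order.le_of_lt_succ (Cardinal.lt_ord.1 ha)
  have h2 : (VB B).leCard (check (Mu c)) (check (Kap c)) = ⊥ := by
    by_contra hne
    set Γ := (VB B).leCard (check (Mu c)) (check (Kap c)) with hΓ
    obtain ⟨t, ht⟩ := exists_enum_type (B := B) (c := c) (K := c.ord.ToType) (Γ := Γ)
      (x := check (Mu c)) (mk_ord_toType c) hΓ.le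
    have hex : ∀ y : (Order.succ c).ord.ToType, ∃ k : c.ord.ToType,
        Γ ⊓ beq (check (Ordinal.ToType.mk.symm y).1.toZFSet) (t k) ≠ ⊥ := by
      intro y
      by_contra hno
      push Not at hno
      apply hne
      have h4 := ht (check (Ordinal.ToType.mk.symm y).1.toZFSet)
      rw [mem_check_of_mem, inf_top_eq] at h4
      · have h5 : Γ ≤ ⨆ k, Γ ⊓ beq (check (Ordinal.ToType.mk.symm y).1.toZFSet) (t k) := by
          rw [← inf_iSup_eq]; exact le_inf le_rfl h4
        rw [← le_bot_iff]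
        refine h5.trans (iSup_le fun k => (hno k).le)
      · rw [Mu, Ordinal.toZFSet_mem_toZFSet_iff]
        exact (Ordinal.ToType.mk.symm y).2
    choose f hf using hex
    have hfib : ∀ k, #{y // f y = k} ≤ c := by
      intro k
      refine card_le_of_disjoint h
        (fun y : {y // f y = k} => Γ ⊓ beq (check (Ordinal.ToType.mk.symm y.1).1.toZFSet) (t k))
        ?_ ?_
      · rintro ⟨y, rfl⟩
        exact hf y
      · rintro ⟨y, hy⟩ ⟨y', hy'⟩ hyy
        have hne' : (Ordinal.ToType.mk.symm y).1.toZFSet ≠ (Ordinal.ToType.mk.symm y').1.toZFSet := by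
          intro he
          apply hyy
          have := Ordinal.toZFSet_injective he
          exact Subtype.ext (Ordinal.ToType.mk.symm.injective (Subtype.ext this))
        rw [← le_bot_iff, ← beq_check_of_ne (B := B) hne']
        refine (ext_eq_right _).of_le' (x := t k) (inf_le_right.trans inf_le_right)
          (inf_le_left.trans inf_le_right)
    have hY : #(Order.succ c).ord.ToType ≤ c := by
      rw [← Cardinal.mk_congr (Equiv.sigmaFiberEquiv f), Cardinal.mk_sigma]
      refine (Cardinal.sum_le_sum _ (fun _ => c) hfib).trans ?_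
      rw [Cardinal.sum_const', mk_ord_toType, Cardinal.mul_eq_self hc]
    rw [mk_ord_toType] at hY
    exact absurd hY (not_le.2 (Order.lt_succ c))
  rw [Str.isSucc, h1, h2, h3]
  simp

theorem cc : CCStatement.{u} := fun _ _ _ hc =>
  ⟨fun K U hK hU hcov => ccov_of_ult K U hK hU hcov, fun h => isSucc_check hc h⟩

end Pool.Agent.Lib.MP_100a6c_lc.H61
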